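import Pool.Agent.H217_LR.Sd
import Pool.Agent.H217_D3.Tame

/-!
# Colouring Cayley graphs of finite abelian groups by cosets
-/

set_option autoImplicit false

namespace Pool.Agent.H217_D3

open Finset Pool.Agent.H217_LR

/-- the matrix `f (x - y)` -/
def dm {W : Type} [AddCommGroup W] (f : W → Bool) : W → W → Bool := fun x y => f (x - y)

theorem density {W : Type} [AddCommGroup W] [Finite W] (f : W → Bool) (h : ∃ x, f x = true) :
    Nat.card W ≤ (sd (dm f) + 1) * Nat.card {x | f x = true} := by
  classical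
  have := Fintype.ofFinite W
  obtain ⟨x0, hx0⟩ := h
  obtain ⟨b, hb, hspan, hli⟩ := exists_linearIndependent ℝ (Set.range (row (dm f)))
  have hfin : b.Finite := (Set.finite_range (row (dm f))).subset hb
  have := hfin.fintype
  have hcard : Nat.card b ≤ sd (dm f) + 1 := by
    have h1 : Module.finrank ℝ (Submodule.span ℝ b) = Nat.card b := by
      rw [finrank_span_set_eq_card hli, Set.toFinset_card, Nat.card_eq_fintype_card]
    rw [← h1, hspan]
    have h2 : Submodule.span ℝ (Set.range (row (dm f))) ≤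
        dspan (dm f) ⊔ Submodule.span ℝ {row (dm f) 0} := by
      rw [Submodule.span_le]
      rintro _ ⟨x, rfl⟩
      have e : row (dm f) x = (row (dm f) x - row (dm f) 0) + row (dm f) 0 := by simp
      rw [e]
      exact Submodule.add_mem _ (Submodule.mem_sup_left (Submodule.subset_span ⟨(x, 0), rfl⟩))
        (Submodule.mem_sup_right (Submodule.mem_span_singleton_self _))
    have h3 := Submodule.finrank_mono h2
    have h4 := Submodule.finrank_add_le_finrank_add_finrank (dspan (dm f))
      (Submodule.span ℝ {row (dm f) 0})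
    have h5 : Module.finrank ℝ (Submodule.span ℝ {row (dm f) 0}) ≤ 1 := by
      refine (finrank_span_le_card (R := ℝ) ({row (dm f) 0} : Set (W → ℝ))).trans ?_
      simp
    unfold sd
    omega
  have hcov : ∀ y : W, ∃ r : b, r.1 y ≠ 0 := by
    intro y
    by_contra hc
    push Not at hc
    have h1 : row (dm f) (x0 + y) ∈ Submodule.span ℝ b := by
      rw [hspan]; exact Submodule.subset_span ⟨_, rfl⟩
    have h2 : ∀ v ∈ Submodule.span ℝ b, v y = 0 := by
      intro v hv
      induction hv using Submodule.span_induction with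
      | mem x hx => exact hc ⟨x, hx⟩
      | zero => rfl
      | add u v _ _ hu hv => simp [hu, hv]
      | smul t u _ hu => simp [hu]
    have h3 := h2 _ h1
    simp [row, dm, hx0] at h3
  have hex : ∀ r : b, ∃ x, row (dm f) x = r.1 := fun r => hb r.2
  choose X hX using hex
  choose R hR using hcov
  have hone : ∀ y, f (X (R y) - y) = true := by
    intro y
    have h1 := hR y
    rw [← hX] at h1
    by_contra hc
    simp only [Bool.not_eq_true] at hc
    simp [row, dm, hc] at h1
  let φ : W → b × {x | f x = true} := fun y => (R y, ⟨X (R y) - y, hone y⟩)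
  have hφ : Function.Injective φ := by
    intro y y' h
    have h1 : R y = R y' := (Prod.ext_iff.1 h).1
    have h2 : X (R y) - y = X (R y') - y' := congrArg Subtype.val (Prod.ext_iff.1 h).2
    rw [h1] at h2
    exact sub_right_injective h2
  have h1 := Nat.card_le_card_of_injective φ hφ
  rw [Nat.card_prod] at h1
  exact h1.trans (Nat.mul_le_mul_right _ hcard)

theorem halve {W : Type} [AddCommGroup W] [Finite W] (f : W → Bool) (hs : ∀ x, f (-x) = f x)
    (U : AddSubgroup W) (a : W) (c : Bool) (h : ∀ u ∈ U, f (a + u) = c) :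
    2 * sd (dm fun u : U => f u) ≤ sd (dm f) := by
  classical
  have := Fintype.ofFinite W
  have := Fintype.ofFinite U
  refine (sd_double (dm fun u : U => f u) c).trans ?_
  refine le_trans (le_of_eq ?_) (sd_lift (dm f)
    (fun p : Bool × U => (p.2 : W) + (if p.1 then a else 0))
    (fun q : Bool × U => (q.2 : W) + (if q.1 then 0 else a)))
  congr 1
  funext p q
  obtain ⟨s, u⟩ := p
  obtain ⟨t, v⟩ := q
  have hc1 : f ((u : W) + a - v) = c := by
    have := h _ (U.sub_mem u.2 v.2)
    rwa [show a + ((u : W) - v) = (u : W) + a - v by abel] at this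
  have hc2 : f ((u : W) - (v + a)) = c := by
    have := h _ (U.sub_mem v.2 u.2)
    rw [← hs] at this
    rwa [show -(a + ((v : W) - u)) = (u : W) - (v + a) by abel] at this
  cases s <;> cases t
  · simp [dm, hc2]
  · simp [dm]
  · simp [dm]
  · simp [dm, hc1]

/-- Bernoulli -/
theorem bern (a : ℕ) : ∀ n : ℕ, a ^ (n + 1) + (n + 1) * a ^ n ≤ (a + 1) ^ (n + 1) := by
  intro n
  induction n with
  | zero => simp
  | succ n ih =>
    calc a ^ (n + 1 + 1) + (n + 1 + 1) * a ^ (n + 1)
        ≤ (a ^ (n + 1) + (n + 1) * a ^ n) * (a + 1) := by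
          have : (a ^ (n + 1) + (n + 1) * a ^ n) * (a + 1) =
            a ^ (n + 1 + 1) + (n + 1 + 1) * a ^ (n + 1) + (n + 1) * a ^ n := by ring
          rw [this]
          exact Nat.le_add_right _ _
      _ ≤ (a + 1) ^ (n + 1) * (a + 1) := Nat.mul_le_mul_right _ ih
      _ = (a + 1) ^ (n + 1 + 1) := by ring

theorem two_mul_pow (K : ℕ) (hK : 0 < K) : 2 * (K - 1) ^ K ≤ K ^ K := by
  obtain ⟨a, rfl⟩ : ∃ a, K = a + 1 := ⟨K - 1, by omega⟩
  simp only [Nat.add_sub_cancel]
  have := bern a a
  have e : (a + 1) * a ^ a = a ^ (a + 1) + a ^ a := by ring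
  rw [e] at this
  omega

theorem steps {K t w s : ℕ} (hK : 0 < K) (hs : 0 < s) (h : w ≤ 2 ^ t * s) :
    w * (K - 1) ^ (K * t + 1) < s * K ^ (K * t + 1) := by
  calc w * (K - 1) ^ (K * t + 1) ≤ (2 ^ t * s) * (K - 1) ^ (K * t + 1) :=
        Nat.mul_le_mul_right _ h
    _ = s * ((2 * (K - 1) ^ K) ^ t * (K - 1)) := by
        rw [mul_pow, ← pow_mul, pow_succ]; ring
    _ ≤ s * ((K ^ K) ^ t * (K - 1)) :=
        Nat.mul_le_mul_left _ (Nat.mul_le_mul_right _ (Nat.pow_le_pow_left (two_mul_pow K hK) t))
    _ < s * ((K ^ K) ^ t * K) := by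
        refine Nat.mul_lt_mul_of_pos_left (Nat.mul_lt_mul_of_pos_left (by omega) ?_) hs
        positivity
    _ = s * K ^ (K * t + 1) := by rw [← pow_mul, pow_succ]

theorem exists_dense {W : Type} [AddCommGroup W] [Finite W] {m : ℕ} (T : Fin m → Set W)
    (S : Set W) (hS : S = {x | ∃ i, x ∈ T i}) (hne : S.Nonempty) :
    ∃ i, (T i).Nonempty ∧ Nat.card S ≤ m * Nat.card (T i) := by
  classical
  obtain ⟨x, hx⟩ := hne
  rw [hS] at hx
  obtain ⟨i0, hi0⟩ := hx
  have hm : (univ : Finset (Fin m)).Nonempty := ⟨i0, mem_univ _⟩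
  obtain ⟨i, _, hmax⟩ := Finset.exists_max_image univ (fun i => Nat.card (T i)) hm
  refine ⟨i, ?_, ?_⟩
  · by_contra hc
    rw [Set.not_nonempty_iff_eq_empty] at hc
    have h1 : Nat.card (T i0) ≤ Nat.card (T i) := hmax i0 (mem_univ _)
    have h2 : 0 < Nat.card (T i0) := by
      have : Nonempty (T i0) := ⟨⟨x, hi0⟩⟩
      exact Nat.card_pos
    have h3 : Nat.card (∅ : Set W) = 0 := by simp
    rw [hc, h3] at h1
    omega
  · have h1 : Nat.card S ≤ ∑ i, Nat.card (T i) := by
      have h2 : Function.Surjective (fun p : (Σ i, T i) =>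
          (⟨p.2.1, by rw [hS]; exact ⟨p.1, p.2.2⟩⟩ : S)) := by
        rintro ⟨y, hy⟩
        have hy' := hy
        rw [hS] at hy'
        obtain ⟨j, hj⟩ := hy'
        exact ⟨⟨j, ⟨y, hj⟩⟩, rfl⟩
      refine (Nat.card_le_card_of_surjective _ h2).trans (le_of_eq ?_)
      exact Nat.card_sigma
    refine h1.trans ((Finset.sum_le_sum fun j _ => hmax j (mem_univ _)).trans ?_)
    simp

/-- **The certificate.** -/
theorem cert {K q m μ : ℕ} (hK : 0 < K) (hμ : m ≤ 2 ^ μ) (l : ℕ) {W : Type} [AddCommGroup W]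
    [Finite W] (f : W → Bool) (e : Bool) (hf : Deep K q m {x | f x = e})
    (hl : sd (dm f) < 2 ^ l) : (∀ x, f x = !e) ∨ ∃ (U : AddSubgroup W) (a : W),
      Nat.card W ≤ K ^ (K * (l + μ) + q) * Nat.card U ∧ ∀ w ∈ U, f (a + w) = e := by
  classical
  by_cases hc : ∀ x, f x = !e
  · exact Or.inl hc
  · right
    push Not at hc
    obtain ⟨x0, hx0⟩ := hc
    have hx0 : f x0 = e := by
      cases e <;> simpa using hx0
    have hd : Nat.card W ≤ 2 ^ l * Nat.card {x | f x = e} := by
      cases e
      · have h1 := density (fun x => !f x) ⟨x0, by simp [hx0]⟩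
        have h2 : sd (dm fun x => !f x) = sd (dm f) := sd_not (dm f)
        rw [h2] at h1
        have h3 : {x | (!f x) = true} = {x | f x = false} := by
          ext x; simp
        rw [h3] at h1
        exact h1.trans (Nat.mul_le_mul_right _ (by omega))
      · exact (density f ⟨x0, hx0⟩).trans (Nat.mul_le_mul_right _ (by omega))
    obtain ⟨T, hT, hS⟩ := hf
    obtain ⟨i, hi, hcard⟩ := exists_dense T _ hS ⟨x0, hx0⟩
    have hpos : 0 < Nat.card (T i) := by
      have : Nonempty (T i) := hi.to_subtype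
      exact Nat.card_pos
    have h1 : Nat.card W ≤ 2 ^ (l + μ) * Nat.card (T i) := by
      calc Nat.card W ≤ 2 ^ l * (2 ^ μ * Nat.card (T i)) :=
            hd.trans (Nat.mul_le_mul_left _ (hcard.trans (Nat.mul_le_mul_right _ hμ)))
        _ = 2 ^ (l + μ) * Nat.card (T i) := by ring
    obtain ⟨U, a, h2, h3⟩ := greedy K q (K * (l + μ)) W (T i) (hT i) (steps hK hpos h1)
    refine ⟨U, a, h2, fun w hw => ?_⟩
    have h4 : a + w ∈ {x | f x = e} := by
      rw [hS]; exact ⟨i, h3 w hw⟩
    exact h4

theorem const_dm {W : Type} [AddCommGroup W] [Finite W] (f : W → Bool) (h : sd (dm f) = 0)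
    (x : W) : f x = f 0 := by
  have := Fintype.ofFinite W
  have := const_of_sd (dm f) h x 0 0
  simpa [dm] using this

/-- **The colouring.** -/
theorem colour {K q m μ : ℕ} (hK : 0 < K) (hμ : m ≤ 2 ^ μ) (e : Bool) : ∀ (l : ℕ) (W : Type)
    [AddCommGroup W] [Finite W] (f : W → Bool), (∀ x, f (-x) = f x) → f 0 = false →
    Deep K q m {x | f x = e} → sd (dm f) < 2 ^ l →
    ∃ (C : Type) (_ : Finite C) (χ : W → C),
      Nat.card C ≤ K ^ (∑ j ∈ range l, (K * ((j + 1) + μ) + q)) ∧
      ∀ x y, f (x - y) = true → χ x ≠ χ y := by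
  intro l
  induction l with
  | zero =>
    intro W _ _ f hs h0 _ hl
    refine ⟨Unit, inferInstance, fun _ => (), by simp, fun x y h => ?_⟩
    rw [const_dm f (by simpa using hl), h0] at h
    exact absurd h (by simp)
  | succ l ih =>
    intro W _ _ f hs h0 hf hl
    rcases cert hK hμ (l + 1) f e hf hl with hc | ⟨U, a, hU, hc⟩
    · refine ⟨Unit, inferInstance, fun _ => (), ?_, fun x y h => ?_⟩
      · simpa using Nat.one_le_pow _ _ hK
      · rw [hc, ← hc 0, h0] at h
        exact absurd h (by simp)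
    · have h1 := halve f hs U a e hc
      obtain ⟨C, hC, χ, hcard, hχ⟩ := ih U (fun u => f u) (fun u => by
          simpa using hs (u : W)) (by simpa using h0) (by
          have := hf.restrict U 0
          simpa using this) (by
          rw [pow_succ] at hl
          omega)
      have hout : ∀ x : W, x - (x : W ⧸ U).out ∈ U := by
        intro x
        have := (QuotientAddGroup.eq (s := U)).1 (Quotient.out_eq (x : W ⧸ U))
        rwa [neg_add_eq_sub] at this
      refine ⟨(W ⧸ U) × C, inferInstance,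
        fun x => ((x : W ⧸ U), χ ⟨x - (x : W ⧸ U).out, hout x⟩), ?_, ?_⟩
      · rw [Nat.card_prod, Finset.sum_range_succ, pow_add, mul_comm]
        refine Nat.mul_le_mul hcard ?_
        have h2 := AddSubgroup.index_mul_card U
        rw [← h2] at hU
        have h3 : 0 < Nat.card U := Nat.card_pos
        exact Nat.le_of_mul_le_mul_right hU h3
      · intro x y h he
        have h2 : (x : W ⧸ U) = (y : W ⧸ U) := (Prod.ext_iff.1 he).1
        have h3 := (Prod.ext_iff.1 he).2
        refine hχ _ _ ?_ h3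
        simp only [AddSubgroup.coe_sub]
        rw [h2]
        rwa [sub_sub_sub_cancel_right]

end Pool.Agent.H217_D3
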