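import Pool.Agent.H217_D3.Colour

/-!
# Chromatic number and rank
-/

set_option autoImplicit false

namespace Pool.Agent.H217_D3

open Finset Pool.Agent.H217_LR

theorem sum_le (K q μ l : ℕ) :
    ∑ j ∈ range l, (K * ((j + 1) + μ) + q) ≤ l * (K * (l + μ) + q) := by
  calc ∑ j ∈ range l, (K * ((j + 1) + μ) + q) ≤ ∑ _j ∈ range l, (K * (l + μ) + q) := by
        refine Finset.sum_le_sum fun j hj => ?_
        rw [mem_range] at hj
        exact Nat.add_le_add_right (Nat.mul_le_mul_left _ (by omega)) _
    _ = l * (K * (l + μ) + q) := by rw [Finset.sum_const, card_range, smul_eq_mul]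

theorem graph {V : Type} [Fintype V] (G : SimpleGraph V) [DecidableRel G.Adj] {K q m t : ℕ}
    (hK : 1 ≤ K) (A : Fin t → Type) [∀ i, AddCommGroup (A i)] [∀ i, Finite (A i)]
    (φ : ∀ i, A i → V) (hcov : ∀ v, ∃ i a, φ i a = v) (S : ∀ i, Set (A i))
    (hG : ∀ i x y, G.Adj (φ i x) (φ i y) ↔ x - y ∈ S i)
    (hS : ∀ i, Deep K q m (S i) ∨ Deep K q m (S i)ᶜ) :
    Real.logb 2 (G.chromaticNumber.toNat : ℝ) ≤ Real.logb 2 t +
      (Real.logb 2 ((G.adjMatrix ℝ).rank : ℝ) + 1) *
        (K * (Real.logb 2 ((G.adjMatrix ℝ).rank : ℝ) + Real.logb 2 m + 2) + q) *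
          Real.logb 2 K := by
  classical
  set F : V → V → Bool := fun v w => decide (G.Adj v w) with hF
  set s := sd F with hs
  set r := (G.adjMatrix ℝ).rank with hr
  have hsr : s ≤ r := by
    have h1 := sd_le_rank F
    have h2 : (Matrix.of fun (x : V) (y : V) => if F x y then (1 : ℝ) else 0) =
        G.adjMatrix ℝ := by
      ext x y
      simp [hF, SimpleGraph.adjMatrix_apply]
    rw [h2] at h1
    exact h1
  obtain ⟨l, hl, hlr⟩ : ∃ l : ℕ, s < 2 ^ l ∧ (l : ℝ) ≤ Real.logb 2 (r : ℝ) + 1 := by
    by_cases h0 : s = 0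
    · refine ⟨0, by simp [h0], ?_⟩
      have : (0 : ℝ) ≤ Real.logb 2 (r : ℝ) := by
        rcases Nat.eq_zero_or_pos r with h | h
        · rw [h]; simp
        · exact Real.logb_nonneg (by norm_num) (by exact_mod_cast h)
      push_cast
      linarith
    · refine ⟨Nat.log 2 s + 1, Nat.lt_pow_succ_log_self (by norm_num) _, ?_⟩
      have h1 : (Nat.log 2 s : ℝ) ≤ Real.logb 2 (s : ℝ) := by
        exact_mod_cast Real.natLog_le_logb s 2
      have h2 : Real.logb 2 (s : ℝ) ≤ Real.logb 2 (r : ℝ) :=
        Real.logb_le_logb_of_le (by norm_num) (by exact_mod_cast Nat.pos_of_ne_zero h0)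
          (by exact_mod_cast hsr)
      push_cast
      linarith
  obtain ⟨μ, hμ, hμr⟩ : ∃ μ : ℕ, m ≤ 2 ^ μ ∧ (μ : ℝ) ≤ Real.logb 2 (m : ℝ) + 1 := by
    rcases Nat.eq_zero_or_pos m with h | h
    · exact ⟨0, by omega, by rw [h]; simp⟩
    · by_cases h1 : m = 1
      · exact ⟨0, by omega, by rw [h1]; simp⟩
      · refine ⟨Nat.log 2 m + 1, (Nat.lt_pow_succ_log_self (by norm_num) _).le, ?_⟩
        have h1 : (Nat.log 2 m : ℝ) ≤ Real.logb 2 (m : ℝ) := by
          exact_mod_cast Real.natLog_le_logb m 2
        push_cast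
        linarith
  set E := l * (K * (l + μ) + q) with hE
  -- colourings of the pieces
  have hpiece : ∀ i, ∃ χ : A i → Fin (K ^ E), ∀ x y, x - y ∈ S i → χ x ≠ χ y := by
    intro i
    set f : A i → Bool := fun x => decide (x ∈ S i) with hf
    have hsym : ∀ x, f (-x) = f x := by
      intro x
      have h1 := hG i x 0
      have h2 := hG i 0 x
      rw [G.adj_comm] at h2
      rw [sub_zero] at h1
      rw [zero_sub] at h2
      simp only [hf]
      congr 1
      rw [eq_iff_iff]
      exact h2.symm.trans h1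
    have h0 : f 0 = false := by
      have h1 := hG i 0 0
      rw [sub_self] at h1
      simp only [hf, decide_eq_false_iff_not]
      exact fun h => G.loopless.irrefl _ (h1.2 h)
    have hsd : sd (dm f) < 2 ^ l := by
      refine lt_of_le_of_lt ?_ hl
      have := Fintype.ofFinite (A i)
      refine le_trans (le_of_eq ?_) (sd_lift F (φ i) (φ i))
      congr 1
      funext x y
      simp only [dm, hf, hF]
      congr 1
      rw [eq_iff_iff]
      exact (hG i x y).symm
    have hdeep : ∃ e, Deep K q m {x | f x = e} := by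
      rcases hS i with h | h
      · refine ⟨true, ?_⟩
        have e : {x | f x = true} = S i := by
          ext x; simp [hf]
        rw [e]; exact h
      · refine ⟨false, ?_⟩
        have e : {x | f x = false} = (S i)ᶜ := by
          ext x; simp [hf]
        rw [e]; exact h
    obtain ⟨e, he⟩ := hdeep
    obtain ⟨C, hC, χ, hcard, hχ⟩ := colour (q := q) hK hμ e l (A i) f hsym h0 he hsd
    have := Fintype.ofFinite C
    have hcard' : Fintype.card C ≤ Fintype.card (Fin (K ^ E)) := by
      rw [Fintype.card_fin, ← Nat.card_eq_fintype_card]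
      exact hcard.trans (Nat.pow_le_pow_right hK (sum_le K q μ l))
    obtain ⟨g⟩ := Function.Embedding.nonempty_of_card_le hcard'
    refine ⟨fun x => g (χ x), fun x y h he' => hχ x y ?_ (g.injective he')⟩
    simpa [hf] using h
  choose χ hχ using hpiece
  choose I a hIa using hcov
  have hcol : G.Colorable (t * K ^ E) := by
    have : G.Coloring (Fin t × Fin (K ^ E)) :=
      SimpleGraph.Coloring.mk (fun v => (I v, χ (I v) (a v))) (by
        intro v w h he
        have h1 : I v = I w := (Prod.ext_iff.1 he).1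
        have h2 : χ (I v) (a v) = χ (I w) (a w) := (Prod.ext_iff.1 he).2
        have h3 : ∀ (j : Fin t) (y : A j), I v = j → φ j y = w → χ (I v) (a v) = χ j y → False := by
          rintro j y rfl hy h4
          refine hχ (I v) (a v) y ?_ h4
          rw [← hG, hIa, hy]
          exact h
        exact h3 (I w) (a w) h1 (hIa w) h2)
    have h4 := this.colorable
    simpa using h4
  have hchi : G.chromaticNumber.toNat ≤ t * K ^ E := by
    have h1 := hcol.chromaticNumber_le
    exact ENat.toNat_le_of_le_natCast h1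
  have hL : (0 : ℝ) ≤ Real.logb 2 (r : ℝ) := by
    rcases Nat.eq_zero_or_pos r with h | h
    · rw [h]; simp
    · exact Real.logb_nonneg (by norm_num) (by exact_mod_cast h)
  have hM : (0 : ℝ) ≤ Real.logb 2 (m : ℝ) := by
    rcases Nat.eq_zero_or_pos m with h | h
    · rw [h]; simp
    · exact Real.logb_nonneg (by norm_num) (by exact_mod_cast h)
  have hK2 : (0 : ℝ) ≤ Real.logb 2 (K : ℝ) :=
    Real.logb_nonneg (by norm_num) (by exact_mod_cast hK)
  have hmain : (E : ℝ) * Real.logb 2 K ≤ (Real.logb 2 (r : ℝ) + 1) *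
        (K * (Real.logb 2 (r : ℝ) + Real.logb 2 m + 2) + q) * Real.logb 2 K := by
    refine mul_le_mul_of_nonneg_right ?_ hK2
    rw [hE]
    push_cast
    have h1 : (K : ℝ) * ((l : ℝ) + μ) + q ≤
        K * (Real.logb 2 (r : ℝ) + Real.logb 2 m + 2) + q := by
      have : (l : ℝ) + μ ≤ Real.logb 2 (r : ℝ) + Real.logb 2 m + 2 := by linarith
      have := mul_le_mul_of_nonneg_left this (show (0 : ℝ) ≤ K by positivity)
      linarith
    exact mul_le_mul hlr h1 (by positivity) (by linarith)
  rcases Nat.eq_zero_or_pos (G.chromaticNumber.toNat) with h0 | h0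
  · rw [h0]
    have h1 : (0 : ℝ) ≤ Real.logb 2 (t : ℝ) := by
      rcases Nat.eq_zero_or_pos t with h | h
      · rw [h]; simp
      · exact Real.logb_nonneg (by norm_num) (by exact_mod_cast h)
    have h2 : (0 : ℝ) ≤ (E : ℝ) * Real.logb 2 K := by positivity
    simp only [Nat.cast_zero, Real.logb_zero]
    linarith
  · have ht : 0 < t := by
      by_contra hc
      have : t = 0 := by omega
      rw [this] at hchi
      omega
    have h1 : Real.logb 2 (G.chromaticNumber.toNat : ℝ) ≤
        Real.logb 2 ((t * K ^ E : ℕ) : ℝ) :=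
      Real.logb_le_logb_of_le (by norm_num) (by exact_mod_cast h0) (by exact_mod_cast hchi)
    have h2 : Real.logb 2 ((t * K ^ E : ℕ) : ℝ) =
        Real.logb 2 t + E * Real.logb 2 K := by
      push_cast
      rw [Real.logb_mul (by positivity) (by positivity), Real.logb_pow]
    rw [h2] at h1
    linarith

end Pool.Agent.H217_D3
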