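import Pool.Agent.H217_D3.Colour
import Pool.Agent.Y347.CO.HjThm

/-!
# Large cosets in families of subsets of `[N]^d`
-/

set_option autoImplicit false

namespace Pool.Agent.H217_D3

open Finset

/-- the indicator function -/
def ind {E : Type} [DecidableEq E] (A : Finset E) : E → ZMod 2 := fun x => if x ∈ A then 1 else 0

/-- the support -/
def sup {E : Type} [Fintype E] (w : E → ZMod 2) : Finset E := univ.filter fun x => w x = 1

theorem z2' (a : ZMod 2) : a = 0 ∨ a = 1 := by
  revert a; decide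

theorem ind_sup {E : Type} [Fintype E] [DecidableEq E] (w : E → ZMod 2) : ind (sup w) = w := by
  funext x
  rcases z2' (w x) with h | h <;> simp [ind, sup, h]

theorem sup_ind {E : Type} [Fintype E] [DecidableEq E] (A : Finset E) : sup (ind A) = A := by
  ext x
  by_cases h : x ∈ A <;> simp [ind, sup, h]

/-- a condition on `k` parities -/
def Cell {E : Type} [DecidableEq E] (k : ℕ) (B : Set (Finset E)) : Prop :=
  ∃ (X : Fin k → Finset E) (b : Fin k → ℕ), B = {A | ∀ i, (A ∩ X i).card % 2 = b i}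

def LocalFam {E : Type} [DecidableEq E] (k q : ℕ) (T : Set (Finset E)) : Prop :=
  ∃ (𝒜 : Set (Set (Finset E))) (ℬ : Fin q → Set (Set (Finset E))), (∀ B ∈ 𝒜, Cell k B) ∧
    (∀ j, ∀ B ∈ ℬ j, Cell k B) ∧ T = {A | (∀ B ∈ 𝒜, A ∉ B) ∧ ∀ j, ∃ B ∈ ℬ j, A ∈ B}

/-- the parities as a homomorphism -/
def par {E : Type} [Fintype E] {k : ℕ} (X : Fin k → Finset E) :
    (E → ZMod 2) →+ (Fin k → ZMod 2) where
  toFun w i := ∑ x ∈ X i, w x
  map_zero' := by funext i; simp
  map_add' w w' := by funext i; simp [Finset.sum_add_distrib]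

theorem par_ind {E : Type} [Fintype E] [DecidableEq E] {k : ℕ} (X : Fin k → Finset E)
    (A : Finset E) (i : Fin k) : par X (ind A) i = ((A ∩ X i).card : ZMod 2) := by
  show ∑ x ∈ X i, ind A x = _
  unfold ind
  rw [← Finset.sum_filter, Finset.sum_const, nsmul_eq_mul, mul_one]
  congr 2
  ext x
  simp [and_comm]

theorem flat_of_cell {E : Type} [Fintype E] [DecidableEq E] {k : ℕ} {B : Set (Finset E)}
    (hB : Cell k B) : Flat (2 ^ k) {w : E → ZMod 2 | sup w ∈ B} := by
  obtain ⟨X, b, rfl⟩ := hB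
  by_cases he : ∃ w0 : E → ZMod 2, ∀ i, (sup w0 ∩ X i).card % 2 = b i
  · obtain ⟨w0, hw0⟩ := he
    right
    refine ⟨(par X).ker, w0, ?_, ?_⟩
    · rw [AddSubgroup.index_ker]
      refine (Nat.card_le_card_of_injective (fun y : (par X).range => (y : Fin k → ZMod 2))
        Subtype.val_injective).trans ?_
      simp [Nat.card_eq_fintype_card, ZMod.card]
    · ext w
      simp only [Set.mem_ofPred_eq, AddMonoidHom.mem_ker, map_sub, sub_eq_zero]
      constructor
      · intro h
        funext i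
        rw [← ind_sup w, ← ind_sup w0, par_ind, par_ind]
        rw [ZMod.natCast_eq_natCast_iff']
        rw [h i, hw0 i]
      · intro h i
        have h1 := congrFun h i
        rw [← ind_sup w, ← ind_sup w0, par_ind, par_ind, ZMod.natCast_eq_natCast_iff'] at h1
        rw [h1, hw0 i]
  · left
    ext w
    simp only [Set.mem_ofPred_eq, Set.mem_empty_iff_false, iff_false]
    exact fun h => he ⟨w, h⟩

theorem tame_of_local {E : Type} [Fintype E] [DecidableEq E] {k q : ℕ} {T : Set (Finset E)}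
    (hT : LocalFam k q T) : Tame (2 ^ k) q {w : E → ZMod 2 | sup w ∈ T} := by
  obtain ⟨𝒜, ℬ, hA, hB, rfl⟩ := hT
  refine ⟨(fun B => {w : E → ZMod 2 | sup w ∈ B}) '' 𝒜,
    fun j => (fun B => {w : E → ZMod 2 | sup w ∈ B}) '' ℬ j, ?_, ?_, ?_⟩
  · rintro _ ⟨B, hB', rfl⟩
    exact flat_of_cell (hA B hB')
  · rintro j _ ⟨B, hB', rfl⟩
    exact flat_of_cell (hB j B hB')
  · ext w
    constructor
    · rintro ⟨h1, h2⟩
      refine ⟨?_, fun j => ?_⟩
      · rintro _ ⟨B, hB', rfl⟩
        exact h1 B hB'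
      · obtain ⟨B, hB', hw⟩ := h2 j
        exact ⟨_, ⟨B, hB', rfl⟩, hw⟩
    · rintro ⟨h1, h2⟩
      refine ⟨fun B hB' => h1 _ ⟨B, hB', rfl⟩, fun j => ?_⟩
      obtain ⟨_, ⟨B, hB', rfl⟩, hw⟩ := h2 j
      exact ⟨B, hB', hw⟩

/-- a dense local family contains a large affine family -/
theorem affine_inside {E : Type} [Fintype E] [DecidableEq E] {k q t : ℕ} {T : Set (Finset E)}
    (hT : LocalFam k q T) (F : Finset (Finset E)) (hF : ∀ A, A ∈ F ↔ A ∈ T) (hpos : 0 < F.card)
    (hd : 2 ^ Fintype.card E ≤ 2 ^ t * F.card) :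
    ∃ G : Finset (Finset E), G ⊆ F ∧ (∀ A ∈ G, ∀ B ∈ G, ∀ C ∈ G, sup (ind A + ind B + ind C) ∈ G) ∧
      2 ^ Fintype.card E ≤ 2 ^ (k * (2 ^ k * t + q)) * G.card := by
  classical
  have hW : Nat.card (E → ZMod 2) = 2 ^ Fintype.card E := by
    simp [Nat.card_eq_fintype_card, ZMod.card]
  have hcardT : Nat.card {w : E → ZMod 2 | sup w ∈ T} = F.card := by
    rw [← Nat.card_eq_finsetCard]
    refine Nat.card_congr ⟨fun w => ⟨sup w.1, (hF _).2 w.2⟩,
      fun A => ⟨ind A.1, by
        show sup (ind A.1) ∈ T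
        rw [sup_ind]; exact (hF _).1 A.2⟩,
      fun w => Subtype.ext (ind_sup _), fun A => Subtype.ext (sup_ind _)⟩
  have hs : Nat.card (E → ZMod 2) ≤ 2 ^ t * Nat.card {w : E → ZMod 2 | sup w ∈ T} := by
    rw [hW, hcardT]; exact hd
  obtain ⟨U, a, hU, ha⟩ := greedy (2 ^ k) q (2 ^ k * t) (E → ZMod 2) _ (tame_of_local hT)
    (steps (by positivity) (by rw [hcardT]; exact hpos) hs)
  refine ⟨univ.filter fun A => ind A - a ∈ U, ?_, ?_, ?_⟩
  · intro A hA
    rw [mem_filter] at hA
    have h1 := ha _ hA.2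
    rw [add_sub_cancel] at h1
    have h2 : sup (ind A) ∈ T := h1
    rw [sup_ind] at h2
    exact (hF _).2 h2
  · intro A hA B hB C hC
    simp only [mem_filter, mem_univ, true_and] at *
    rw [ind_sup]
    have h1 := U.add_mem (U.add_mem hA hB) hC
    have e : ind A - a + (ind B - a) + (ind C - a) = ind A + ind B + ind C - a := by
      have h2 : ∀ y : E → ZMod 2, y + y = 0 := fun y => by
        funext i; simp [CharTwo.add_self_eq_zero]
      have h3 : ind A - a + (ind B - a) + (ind C - a) = ind A + ind B + ind C - a - (a + a) := by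
        abel
      rw [h3, h2 a, sub_zero]
    rwa [e] at h1
  · have hG : (univ.filter fun A => ind A - a ∈ U).card = Nat.card U := by
      rw [← Nat.card_eq_finsetCard]
      refine Nat.card_congr ⟨fun A => ⟨ind A.1 - a, (mem_filter.1 A.2).2⟩,
        fun w => ⟨sup (w.1 + a), by
          rw [mem_filter, ind_sup]
          refine ⟨mem_univ _, ?_⟩
          rw [add_sub_cancel_right]; exact w.2⟩,
        fun A => Subtype.ext (by
          show sup (ind A.1 - a + a) = A.1
          rw [sub_add_cancel, sup_ind]),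
        fun w => Subtype.ext (by
          show ind (sup (w.1 + a)) - a = w.1
          rw [ind_sup, add_sub_cancel_right])⟩
    rw [hG, ← hW]
    refine hU.trans (le_of_eq ?_)
    rw [← pow_mul]

end Pool.Agent.H217_D3
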