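import Pool.Agent.H217_D3.Hj

/-!
# Families of subsets of `[N]^d` decided by parities in depth three
-/

set_option autoImplicit false

namespace Pool.Agent.H217_D3

open Finset

/-- affine families that are not good -/
theorem affine_hj {d N : ℕ} (hd : 1 ≤ d) (G : Finset (Finset (Fin d → Fin N)))
    (hG : ¬ Y347.CO.Good G)
    (h : ∀ A ∈ G, ∀ B ∈ G, ∀ C ∈ G, sup (ind A + ind B + ind C) ∈ G) :
    (G.card : ℝ) ≤ (2 : ℝ) ^ ((N : ℝ) ^ d - N / (d + 1)) := by
  let f : (Fin 3 → Bool) → Bool := fun v => xor (v 0) (xor (v 1) (v 2))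
  refine Y347.CO.hj_op hd f (j := 0) (j' := 1) (by decide) ?_ ?_ G hG ?_
  · exact ⟨fun _ => false, by decide⟩
  · exact ⟨fun _ => false, by decide⟩
  · intro a ha
    have h1 := h _ (ha 0) _ (ha 1) _ (ha 2)
    have e : (univ.filter fun x => f (fun l => decide (x ∈ a l)) = true) =
        sup (ind (a 0) + ind (a 1) + ind (a 2)) := by
      ext x
      have key : ∀ p q r : Bool, (xor p (xor q r) = true) ↔
          ((if p = true then (1 : ZMod 2) else 0) + (if q = true then 1 else 0) +
            (if r = true then 1 else 0) = 1) := by decide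
      have := key (decide (x ∈ a 0)) (decide (x ∈ a 1)) (decide (x ∈ a 2))
      unfold sup
      rw [mem_filter, mem_filter]
      refine and_congr_right fun _ => ?_
      simpa [f, ind] using this
    rw [e]
    exact h1

theorem good_mono {d N : ℕ} {G S : Finset (Finset (Fin d → Fin N))} (h : G ⊆ S)
    (hG : Y347.CO.Good G) : Y347.CO.Good S := by
  obtain ⟨A, hA, γ, h1, h2, h3⟩ := hG
  exact ⟨A, h hA, γ, h1, h2, h h3⟩

theorem hj_deep {d N k q m : ℕ} (hd : 1 ≤ d) (hk : 1 ≤ k) (S : Finset (Finset (Fin d → Fin N)))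
    (T : Fin m → Set (Finset (Fin d → Fin N))) (hT : ∀ i, LocalFam k q (T i))
    (hS : ∀ A, A ∈ S ↔ ∃ i, A ∈ T i) (hg : ¬ Y347.CO.Good S) :
    (S.card : ℝ) ≤ 2 * m * (2 : ℝ) ^ (N ^ d) *
      (2 : ℝ) ^ (((q : ℝ) - N / (k * (d + 1))) / 2 ^ k) := by
  classical
  rcases S.eq_empty_or_nonempty with he | ⟨A0, hA0⟩
  · rw [he]
    simp only [card_empty, Nat.cast_zero]
    positivity
  · obtain ⟨i0, hi0⟩ := (hS A0).1 hA0
    let F : Fin m → Finset (Finset (Fin d → Fin N)) := fun i => univ.filter fun A => A ∈ T i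
    have hm : (univ : Finset (Fin m)).Nonempty := ⟨i0, mem_univ _⟩
    obtain ⟨i, _, hmax⟩ := Finset.exists_max_image univ (fun i => (F i).card) hm
    have hcard : S.card ≤ m * (F i).card := by
      have h1 : S ⊆ univ.biUnion F := by
        intro A hA
        obtain ⟨j, hj⟩ := (hS A).1 hA
        rw [mem_biUnion]
        exact ⟨j, mem_univ _, by simp [F, hj]⟩
      refine (Finset.card_le_card h1).trans (Finset.card_biUnion_le.trans ?_)
      refine (Finset.sum_le_sum fun j _ => hmax j (mem_univ _)).trans ?_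
      simp
    have hpos : 0 < (F i).card := by
      refine lt_of_lt_of_le ?_ (hmax i0 (mem_univ _))
      exact Finset.card_pos.2 ⟨A0, by simp [F, hi0]⟩
    have hE : Fintype.card (Fin d → Fin N) = N ^ d := by simp
    have hex : ∃ t : ℕ, 2 ^ (N ^ d) ≤ 2 ^ t * (F i).card :=
      ⟨N ^ d, Nat.le_mul_of_pos_right _ hpos⟩
    set t := Nat.find hex with ht
    have ht1 : 2 ^ (N ^ d) ≤ 2 ^ t * (F i).card := Nat.find_spec hex
    obtain ⟨G, hGF, hG3, hGc⟩ := affine_inside (t := t) (hT i) (F i) (fun A => by simp [F]) hpos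
      (by rw [hE]; exact ht1)
    have hGS : G ⊆ S := by
      intro A hA
      have := hGF hA
      simp only [F, mem_filter, mem_univ, true_and] at this
      exact (hS A).2 ⟨i, this⟩
    have h1 := affine_hj hd G (fun h => hg (good_mono hGS h)) hG3
    rw [hE] at hGc
    have h2 : (2 : ℝ) ^ ((N : ℝ) ^ d) ≤
        (2 : ℝ) ^ ((k : ℝ) * (2 ^ k * t + q) + ((N : ℝ) ^ d - N / (d + 1))) := by
      have h3 : (2 : ℝ) ^ (N ^ d) ≤ (2 : ℝ) ^ (k * (2 ^ k * t + q)) * G.card := by
        exact_mod_cast hGc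
      have e1 : (2 : ℝ) ^ ((N : ℝ) ^ d) = (2 : ℝ) ^ (N ^ d) := by
        have := Real.rpow_natCast (2 : ℝ) (N ^ d)
        push_cast at this
        exact this
      have e2 : (2 : ℝ) ^ ((k : ℝ) * (2 ^ k * t + q)) = (2 : ℝ) ^ (k * (2 ^ k * t + q)) := by
        have := Real.rpow_natCast (2 : ℝ) (k * (2 ^ k * t + q))
        push_cast at this
        exact this
      rw [Real.rpow_add (by norm_num), e1, e2]
      exact h3.trans (mul_le_mul_of_nonneg_left h1 (by positivity))
    have h4 : (N : ℝ) / (d + 1) ≤ k * (2 ^ k * t + q) := by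
      have := (Real.rpow_le_rpow_left_iff (by norm_num : (1 : ℝ) < 2)).1 h2
      linarith
    have hk0 : (0 : ℝ) < k := by exact_mod_cast hk
    have h5 : ((N : ℝ) / (k * (d + 1)) - q) / 2 ^ k ≤ t := by
      rw [div_le_iff₀ (by positivity)]
      have h6 : (N : ℝ) / (k * (d + 1)) ≤ 2 ^ k * t + q := by
        rw [mul_comm (k : ℝ), ← div_div, div_le_iff₀ hk0]
        linarith
      linarith
    have h7 : ((F i).card : ℝ) ≤ 2 * ((2 : ℝ) ^ (N ^ d) *
        (2 : ℝ) ^ (((q : ℝ) - N / (k * (d + 1))) / 2 ^ k)) := by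
      have h8 : ((F i).card : ℝ) ≤ 2 * ((2 : ℝ) ^ (N ^ d) * (2 : ℝ) ^ (-(t : ℝ))) := by
        rcases Nat.eq_zero_or_pos t with h0 | h0
        · rw [h0]
          have h9 : (F i).card ≤ 2 ^ (N ^ d) := by
            refine (Finset.card_le_univ _).trans ?_
            simp
          have h10 : ((F i).card : ℝ) ≤ (2 : ℝ) ^ (N ^ d) := by exact_mod_cast h9
          simp only [Nat.cast_zero, neg_zero, Real.rpow_zero, mul_one]
          have : (0 : ℝ) ≤ (2 : ℝ) ^ (N ^ d) := by positivity
          linarith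
        · have h9 : ¬ 2 ^ (N ^ d) ≤ 2 ^ (t - 1) * (F i).card :=
            Nat.find_min hex (by omega)
          push Not at h9
          have h10 : 2 ^ t * (F i).card < 2 * 2 ^ (N ^ d) := by
            have e : 2 ^ t = 2 * 2 ^ (t - 1) := by
              rw [← pow_succ']; congr 1; omega
            rw [e, mul_assoc]
            omega
          have h11 : (2 : ℝ) ^ t * (F i).card ≤ 2 * (2 : ℝ) ^ (N ^ d) := by exact_mod_cast h10.le
          rw [Real.rpow_neg (by norm_num), Real.rpow_natCast, ← mul_assoc, ← div_eq_mul_inv,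
            le_div_iff₀ (by positivity)]
          linarith
      refine h8.trans ?_
      refine mul_le_mul_of_nonneg_left (mul_le_mul_of_nonneg_left ?_ (by positivity)) (by norm_num)
      refine Real.rpow_le_rpow_of_exponent_le (by norm_num) ?_
      have : ((q : ℝ) - N / (k * (d + 1))) / 2 ^ k = -(((N : ℝ) / (k * (d + 1)) - q) / 2 ^ k) := by
        ring
      rw [this]
      linarith
    calc (S.card : ℝ) ≤ (m : ℝ) * (F i).card := by exact_mod_cast hcard
      _ ≤ m * (2 * ((2 : ℝ) ^ (N ^ d) *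
          (2 : ℝ) ^ (((q : ℝ) - N / (k * (d + 1))) / 2 ^ k))) :=
          mul_le_mul_of_nonneg_left h7 (by positivity)
      _ = _ := by ring

end Pool.Agent.H217_D3
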